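import Pool.Agent.P.MP_0a67b8_nt.RU.All

/-! A positive proportion of the monic polynomials `f` over a finite field of characteristic two
have both `f` and `f + h` of the form prime plus a power of `g`. -/

namespace Pool.Agent.Results.MP_0a67b8_nt.CharTwoRomanoffPairs

open Polynomial

theorem result (d : ℕ) (hd : 1 ≤ d) : ∃ c : ℝ, 0 < c ∧
    ∀ (k : Type) [Field k] [Finite k] [CharP k 2] (g h : k[X]), g.natDegree = d → h ≠ 0 →
      (Nat.card k = 2 → X * (X + 1) ∣ h) → ∃ n0 : ℕ, ∀ n : ℕ, n0 ≤ n →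
        c * (Nat.card k : ℝ) ^ n ≤ Set.ncard {f : k[X] | f.Monic ∧ f.natDegree = n ∧
          (∃ (P : k[X]) (m : ℕ), P.Monic ∧ Irreducible P ∧ 1 ≤ m ∧ f = P + g ^ m) ∧
          ∃ (P : k[X]) (m : ℕ), P.Monic ∧ Irreducible P ∧ 1 ≤ m ∧ f + h = P + g ^ m} :=
  Pool.Agent.P.MP_e94e4b_nt.RP.U.R_last Pool.Agent.P.MP_e94e4b_nt.RP.U.z_UF d hd

end Pool.Agent.Results.MP_0a67b8_nt.CharTwoRomanoffPairs
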